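import Mathlib

set_option autoImplicit false

/-!
# A spectrally arbitrary sign pattern with a superpattern that is not spectrally arbitrary

`P = M₄ ⊕ T₂` is spectrally arbitrary.  `Q` is obtained from `P` by changing a single zero entry,
the entry in row 1 and column 4, to a plus sign.  No realization of `Q` is nilpotent.

Proof that `P` is spectrally arbitrary.  `T₂` realizes all quadratics, and `M₄` realizes
`x⁴ + p₃ x³ + p₂ x² + p₁ x + p₀` if `p₀ > 0`, or `4 p₂ < p₃²`, or `p₀ = p₁ = 0` and `4 p₂ = p₃²`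
(after a normalization one has to solve one quadratic equation).  Write a real polynomial of degree
six as a product of three quadratics; for one of the three pairs the product of the pair satisfies
one of the three conditions.

Proof that `Q` has no nilpotent realization.  The block of order four would be nilpotent.  Let its
rows be `(a, b, -c, u)`, `(-d, -e, f, 0)`, `(0, 0, 0, -g)`, `(h, k, 0, 0)`, and `X = b h - a k`,
`Y = d k - e h`.  The characteristic polynomial gives `a = e`, `b d - a ^ 2 = u h`,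
`g (c h - f k) = u Y` and `f X + c Y = 0`, so `f (h X + k Y) = - u Y ^ 2 / g ≤ 0`, but
`b (h X + k Y) = X ^ 2 + u h k ^ 2 > 0`.
-/

namespace Pool.Agent.Results.MP_557f7f_co.SpectralSuperpattern

open Polynomial Matrix

/-- `A` is a realization of the sign pattern `S`. -/
def Realizes {n : ℕ} (A : Matrix (Fin n) (Fin n) ℝ) (S : Matrix (Fin n) (Fin n) SignType) : Prop :=
  ∀ i j, SignType.sign (A i j) = S i j

/-- The sign pattern `S` is spectrally arbitrary: every monic real polynomial of degree `n` is the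
characteristic polynomial of a realization of `S`. -/
def SpectrallyArbitrary {n : ℕ} (S : Matrix (Fin n) (Fin n) SignType) : Prop :=
  ∀ p : ℝ[X], p.Monic → p.natDegree = n →
    ∃ A : Matrix (Fin n) (Fin n) ℝ, Realizes A S ∧ A.charpoly = p

/-- `S'` is a superpattern of `S`: it agrees with `S` at every nonzero entry of `S`. -/
def IsSuperpattern {n : ℕ} (S' S : Matrix (Fin n) (Fin n) SignType) : Prop :=
  ∀ i j, S i j ≠ 0 → S' i j = S i j

/-- The pattern `M₄`. -/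
def M4 : Matrix (Fin 4) (Fin 4) SignType :=
  !![1, 1, -1, 0;
     -1, -1, 1, 0;
     0, 0, 0, -1;
     1, 1, 0, 0]

/-- The pattern `T₂`. -/
def T2 : Matrix (Fin 2) (Fin 2) SignType := !![1, 1; -1, -1]

/-- The pattern `M₄ ⊕ T₂`. -/
def P : Matrix (Fin 6) (Fin 6) SignType :=
  !![1, 1, -1, 0, 0, 0;
     -1, -1, 1, 0, 0, 0;
     0, 0, 0, -1, 0, 0;
     1, 1, 0, 0, 0, 0;
     0, 0, 0, 0, 1, 1;
     0, 0, 0, 0, -1, -1]

/-- The superpattern. -/
def Q : Matrix (Fin 6) (Fin 6) SignType :=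
  !![1, 1, -1, 1, 0, 0;
     -1, -1, 1, 0, 0, 0;
     0, 0, 0, -1, 0, 0;
     1, 1, 0, 0, 0, 0;
     0, 0, 0, 0, 1, 1;
     0, 0, 0, 0, -1, -1]

theorem charpoly4 (a b c d e f g h k u : ℝ) :
    (!![a, b, -c, u; -d, -e, f, 0; 0, 0, 0, -g; h, k, 0, 0] :
      Matrix (Fin 4) (Fin 4) ℝ).charpoly =
    X ^ 4 - C (a - e) * X ^ 3 + C (b * d - a * e - u * h) * X ^ 2
      - C (u * (e * h - d * k) + g * (c * h - f * k)) * X
      + C (g * (f * (b * h - a * k) + c * (d * k - e * h))) := by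
  have h1 : charmatrix (!![a, b, -c, u; -d, -e, f, 0; 0, 0, 0, -g; h, k, 0, 0] :
      Matrix (Fin 4) (Fin 4) ℝ) =
      !![X - C a, -C b, C c, -C u; C d, X + C e, -C f, 0; 0, 0, X, C g; -C h, -C k, 0, X] := by
    ext i j : 2
    fin_cases i <;> fin_cases j <;> simp
  rw [Matrix.charpoly, h1]
  simp [Matrix.det_succ_row_zero, Fin.sum_univ_succ, Fin.succAbove]
  ring

theorem charpoly2 (a b d e : ℝ) :
    (!![a, b; -d, -e] : Matrix (Fin 2) (Fin 2) ℝ).charpoly =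
      X ^ 2 - C (a - e) * X + C (b * d - a * e) := by
  rw [Matrix.charpoly_fin_two, Matrix.trace_fin_two, Matrix.det_fin_two]
  simp
  ring

/-- `T₂` realizes all quadratics. -/
theorem realize_T2 (s t : ℝ) :
    ∃ A : Matrix (Fin 2) (Fin 2) ℝ, Realizes A T2 ∧ A.charpoly = X ^ 2 + C s * X + C t := by
  set δ : ℝ := |s| + |t| + 1 with hδ
  have n1 := abs_nonneg s
  have n2 := abs_nonneg t
  have l1 := le_abs_self s
  have l2 := neg_abs_le t
  have hδ0 : 0 < δ := by rw [hδ]; positivity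
  have ha : |t| + 1 ≤ δ - s := by rw [hδ]; linarith
  have ha0 : 0 < δ - s := by linarith
  have hm : (|t| + 1) * (|t| + 1) ≤ (δ - s) * δ :=
    mul_le_mul ha (by rw [hδ]; linarith) (by linarith) ha0.le
  have hg : 0 < t + (δ - s) * δ := by nlinarith
  refine ⟨!![δ - s, 1; -(t + (δ - s) * δ), -δ], ?_, ?_⟩
  · intro i j
    fin_cases i <;> fin_cases j
    · exact sign_pos ha0
    · exact sign_pos one_pos
    · exact sign_neg (neg_neg_of_pos hg)
    · exact sign_neg (neg_neg_of_pos hδ0)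
  · rw [charpoly2]
    have e1 : δ - s - δ = -s := by ring
    have e2 : 1 * (t + (δ - s) * δ) - (δ - s) * δ = t := by ring
    rw [e1, e2, C_neg]
    ring

/-- The parameters of the realizations of `M₄`. -/
theorem core (p0 p1 p2 p3 s κ : ℝ) (h1 : |p3| / 2 < s) (h2 : 0 < s ^ 2 + (p2 - p3 ^ 2 / 4))
    (h3 : |p1| / 2 < κ) (h4 : 0 < 2 * s * κ + (p0 - p1 * p3 / 2))
    (h5 : 0 ≤ 4 * s * κ * (p0 - p1 * p3 / 2) + (p0 - p1 * p3 / 2) ^ 2
      - 4 * (p2 - p3 ^ 2 / 4) * κ ^ 2 + (s ^ 2 + (p2 - p3 ^ 2 / 4)) * p1 ^ 2) :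
    ∃ a c d e h k : ℝ, 0 < a ∧ 0 < c ∧ 0 < d ∧ 0 < e ∧ 0 < h ∧ 0 < k ∧
      a - e = -p3 ∧ d - a * e = p2 ∧ c * h - k = -p1 ∧
      (h - a * k) + c * (d * k - e * h) = p0 := by
  have l1 := le_abs_self p3
  have l2 := neg_abs_le p3
  have l3 := le_abs_self p1
  have l4 := neg_abs_le p1
  obtain ⟨a, ha⟩ : ∃ a, a = s - p3 / 2 := ⟨_, rfl⟩
  obtain ⟨e, he⟩ : ∃ e, e = s + p3 / 2 := ⟨_, rfl⟩
  obtain ⟨d, hd⟩ : ∃ d, d = s ^ 2 + (p2 - p3 ^ 2 / 4) := ⟨_, rfl⟩
  obtain ⟨k, hk⟩ : ∃ k, k = κ + p1 / 2 := ⟨_, rfl⟩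
  obtain ⟨B, hB⟩ : ∃ B, B = 2 * s * κ + (p0 - p1 * p3 / 2) := ⟨_, rfl⟩
  have a0 : 0 < a := by rw [ha]; linarith
  have e0 : 0 < e := by rw [he]; linarith
  have d0 : 0 < d := by rw [hd]; exact h2
  have k0 : 0 < k := by rw [hk]; linarith
  have k1 : 0 < k - p1 := by rw [hk]; linarith
  have B0 : 0 < B := by rw [hB]; exact h4
  have hD : 0 ≤ B ^ 2 - 4 * (d * k) * (k - p1) := by
    have : B ^ 2 - 4 * (d * k) * (k - p1) = 4 * s * κ * (p0 - p1 * p3 / 2) +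
        (p0 - p1 * p3 / 2) ^ 2 - 4 * (p2 - p3 ^ 2 / 4) * κ ^ 2 +
        (s ^ 2 + (p2 - p3 ^ 2 / 4)) * p1 ^ 2 := by
      rw [hB, hd, hk]; ring
    rw [this]; exact h5
  obtain ⟨w, hw⟩ : ∃ w, w = Real.sqrt (B ^ 2 - 4 * (d * k) * (k - p1)) := ⟨_, rfl⟩
  have w0 : 0 ≤ w := by rw [hw]; exact Real.sqrt_nonneg _
  have w2 : w ^ 2 = B ^ 2 - 4 * (d * k) * (k - p1) := by rw [hw]; exact Real.sq_sqrt hD
  have dk : 0 < d * k := mul_pos d0 k0
  obtain ⟨c, hc⟩ : ∃ c, c = (B + w) / (2 * (d * k)) := ⟨_, rfl⟩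
  have c0 : 0 < c := by rw [hc]; positivity
  have hcq : d * k * c ^ 2 - B * c + (k - p1) = 0 := by
    rw [hc]
    field_simp
    nlinarith
  have hh : 0 < (k - p1) / c := div_pos k1 c0
  refine ⟨a, c, d, e, (k - p1) / c, k, a0, c0, d0, e0, hh, k0, ?_, ?_, ?_, ?_⟩
  · rw [ha, he]; ring
  · rw [hd, ha, he]; ring
  · rw [mul_div_cancel₀ _ c0.ne']; ring
  · have e1 : (k - p1) / c = B - d * k * c := by
      rw [div_eq_iff c0.ne']; linarith
    rw [e1]
    have e2 : B = 2 * s * k + p0 - p1 * e := by rw [hB, hk, he]; ring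
    have e3 : c * (B - d * k * c) = k - p1 := by linarith
    have e4 : (B - d * k * c - a * k) + c * (d * k - e * (B - d * k * c)) =
        B - a * k - e * (c * (B - d * k * c)) := by ring
    rw [e4, e3, e2, ha, he]
    ring

/-- The quartics which are used are realized by `M₄`. -/
theorem params (p0 p1 p2 p3 : ℝ)
    (hp : 0 < p0 ∨ p2 - p3 ^ 2 / 4 < 0 ∨ (p0 = 0 ∧ p1 = 0 ∧ p2 - p3 ^ 2 / 4 = 0)) :
    ∃ a c d e h k : ℝ, 0 < a ∧ 0 < c ∧ 0 < d ∧ 0 < e ∧ 0 < h ∧ 0 < k ∧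
      a - e = -p3 ∧ d - a * e = p2 ∧ c * h - k = -p1 ∧
      (h - a * k) + c * (d * k - e * h) = p0 := by
  obtain ⟨δ, hδ⟩ : ∃ δ, δ = p2 - p3 ^ 2 / 4 := ⟨_, rfl⟩
  obtain ⟨m, hm⟩ : ∃ m, m = p0 - p1 * p3 / 2 := ⟨_, rfl⟩
  have n1 := abs_nonneg p1
  have n3 := abs_nonneg p3
  have nδ := abs_nonneg δ
  have nm := abs_nonneg m
  have lδ := neg_abs_le δ
  have lδ' := le_abs_self δ
  have lm := neg_abs_le m
  rw [← hδ] at hp
  have key : ∀ s κ : ℝ, |p3| + |δ| + 1 ≤ s → |p1| + |m| + 1 ≤ κ ∨ (|p1| + 1 ≤ κ ∧ |m| + 1 ≤ s) →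
      0 ≤ 4 * s * κ * m + m ^ 2 - 4 * δ * κ ^ 2 + (s ^ 2 + δ) * p1 ^ 2 →
      ∃ a c d e h k : ℝ, 0 < a ∧ 0 < c ∧ 0 < d ∧ 0 < e ∧ 0 < h ∧ 0 < k ∧
        a - e = -p3 ∧ d - a * e = p2 ∧ c * h - k = -p1 ∧
        (h - a * k) + c * (d * k - e * h) = p0 := by
    intro s κ hs hκ h5
    have s1 : 1 ≤ s := by linarith
    have κ1 : |p1| + 1 ≤ κ := by rcases hκ with h | h <;> linarith [h, nm]
    have κ1' : 1 ≤ κ := by linarith
    refine core p0 p1 p2 p3 s κ (by linarith) ?_ (by linarith) ?_ ?_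
    · rw [← hδ]; nlinarith
    · rw [← hm]
      rcases hκ with h | h
      · nlinarith
      · nlinarith [h.1, h.2]
    · rw [← hm, ← hδ]; exact h5
  rcases hp with h | h | ⟨h, h', h''⟩
  · by_cases hp1 : p1 = 0
    · -- `p1 = 0`, `p0 > 0`
      have hm' : m = p0 := by rw [hm, hp1]; ring
      have hm0 : 0 < m := by rw [hm']; exact h
      have hs0 : 0 ≤ |δ| / m := by positivity
      refine key (|p3| + |δ| + 1 + |m| + |δ| / m) 1 (by linarith)
        (Or.inr ⟨by rw [hp1, abs_zero]; linarith, by linarith⟩) ?_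
      have e1 : |δ| / m * m = |δ| := div_mul_cancel₀ _ hm0.ne'
      rw [hp1]
      have e2 : 0 ≤ (|p3| + |δ| + 1 + |m|) * m := by positivity
      nlinarith [sq_nonneg m]
    · have hp2 : 0 < p1 ^ 2 := by positivity
      obtain ⟨κ, hκ⟩ : ∃ κ, κ = |p1| + 1 := ⟨_, rfl⟩
      have κ0 : 0 < κ := by rw [hκ]; positivity
      obtain ⟨T, hT⟩ : ∃ T, T = 4 * κ * |m| + 4 * |δ| * κ ^ 2 + |δ| * p1 ^ 2 := ⟨_, rfl⟩
      have hT0 : 0 ≤ T := by rw [hT]; positivity
      obtain ⟨s, hs⟩ : ∃ s, s = |p3| + |δ| + 1 + |m| + T / p1 ^ 2 := ⟨_, rfl⟩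
      have hTp : 0 ≤ T / p1 ^ 2 := by positivity
      have hs1 : 1 ≤ s := by rw [hs]; linarith
      refine key s κ (by rw [hs]; linarith) (Or.inr ⟨by rw [hκ], by rw [hs]; linarith⟩) ?_
      have e1 : T ≤ s * p1 ^ 2 := by
        have : T / p1 ^ 2 * p1 ^ 2 = T := div_mul_cancel₀ _ hp2.ne'
        have h2 : T / p1 ^ 2 ≤ s := by rw [hs]; linarith
        nlinarith
      have e2 : s * T ≤ s ^ 2 * p1 ^ 2 := by nlinarith
      have e3 : s * (4 * κ * |m|) + (4 * |δ| * κ ^ 2 + |δ| * p1 ^ 2) ≤ s * T := by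
        rw [hT]
        have : 0 ≤ 4 * |δ| * κ ^ 2 + |δ| * p1 ^ 2 := by positivity
        nlinarith
      have e4 : -(s * (4 * κ * |m|)) ≤ 4 * s * κ * m := by
        have : 0 ≤ s * κ := by positivity
        nlinarith
      have e5 : -(4 * |δ| * κ ^ 2) ≤ -(4 * δ * κ ^ 2) := by
        have : 0 ≤ κ ^ 2 := by positivity
        nlinarith
      have e6 : -(|δ| * p1 ^ 2) ≤ δ * p1 ^ 2 := by nlinarith
      nlinarith [sq_nonneg m]
  · -- `δ < 0`
    obtain ⟨s, hs⟩ : ∃ s, s = |p3| + |δ| + 1 := ⟨_, rfl⟩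
    have hs1 : 1 ≤ s := by rw [hs]; linarith
    have hsm : 0 ≤ s * |m| / (-δ) := div_nonneg (by positivity) (by linarith)
    obtain ⟨κ, hκ⟩ : ∃ κ, κ = |p1| + |m| + 1 + s * |m| / (-δ) := ⟨_, rfl⟩
    have hκ1 : 1 ≤ κ := by rw [hκ]; linarith
    refine key s κ (by rw [hs]) (Or.inl (by rw [hκ]; linarith)) ?_
    have e1 : s * |m| ≤ κ * (-δ) := by
      have h1 : s * |m| / (-δ) * (-δ) = s * |m| := div_mul_cancel₀ _ (by linarith)
      have h2 : s * |m| / (-δ) ≤ κ := by rw [hκ]; linarith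
      have h3 : 0 < -δ := by linarith
      nlinarith
    have e2 : -(κ * (s * |m|)) ≤ s * κ * m := by
      have : 0 ≤ s * κ := by positivity
      nlinarith
    have e3 : κ * (s * |m|) ≤ κ * (κ * (-δ)) := mul_le_mul_of_nonneg_left e1 (by linarith)
    have e4 : 0 ≤ (s ^ 2 + δ) * p1 ^ 2 := by
      refine mul_nonneg ?_ (sq_nonneg _)
      nlinarith
    nlinarith [sq_nonneg m]
  · have hm' : m = 0 := by rw [hm, h, h']; ring
    refine key (|p3| + |δ| + 1) 1 le_rfl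
      (Or.inr ⟨by rw [h', abs_zero]; linarith, by rw [hm', abs_zero]; linarith⟩) ?_
    rw [hm', h'', h']
    simp

theorem realize_M4 (p0 p1 p2 p3 : ℝ)
    (hp : 0 < p0 ∨ p2 - p3 ^ 2 / 4 < 0 ∨ (p0 = 0 ∧ p1 = 0 ∧ p2 - p3 ^ 2 / 4 = 0)) :
    ∃ A : Matrix (Fin 4) (Fin 4) ℝ, Realizes A M4 ∧
      A.charpoly = X ^ 4 + C p3 * X ^ 3 + C p2 * X ^ 2 + C p1 * X + C p0 := by
  obtain ⟨a, c, d, e, h, k, a0, c0, d0, e0, h0, k0, q3, q2, q1, q0⟩ := params p0 p1 p2 p3 hp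
  refine ⟨!![a, 1, -c, 0; -d, -e, 1, 0; 0, 0, 0, -1; h, k, 0, 0], ?_, ?_⟩
  · intro i j
    fin_cases i <;> fin_cases j
    · exact sign_pos a0
    · exact sign_pos one_pos
    · exact sign_neg (neg_neg_of_pos c0)
    · exact sign_zero
    · exact sign_neg (neg_neg_of_pos d0)
    · exact sign_neg (neg_neg_of_pos e0)
    · exact sign_pos one_pos
    · exact sign_zero
    · exact sign_zero
    · exact sign_zero
    · exact sign_zero
    · exact sign_neg (neg_neg_of_pos one_pos)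
    · exact sign_pos h0
    · exact sign_pos k0
    · exact sign_zero
    · exact sign_zero
  · rw [charpoly4]
    have r3 : p3 = -(a - e) := by linarith
    have r2 : p2 = 1 * d - a * e - 0 * h := by linarith
    have r1 : p1 = -(0 * (e * h - d * k) + 1 * (c * h - 1 * k)) := by linarith
    have r0 : p0 = 1 * (1 * (1 * h - a * k) + c * (d * k - e * h)) := by linarith
    conv_rhs => rw [r3, r2, r1, r0]
    simp only [C_neg]
    ring

/-- `M₄` realizes the product of two quadratics in the following three cases. -/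
theorem realize_pair (s1 t1 s2 t2 : ℝ)
    (hp : 0 < t1 * t2 ∨ 4 * (t1 + t2) < (s1 - s2) ^ 2 ∨ (t1 = 0 ∧ t2 = 0 ∧ s1 = s2)) :
    ∃ A : Matrix (Fin 4) (Fin 4) ℝ, Realizes A M4 ∧
      A.charpoly = (X ^ 2 + C s1 * X + C t1) * (X ^ 2 + C s2 * X + C t2) := by
  obtain ⟨A, h1, h2⟩ := realize_M4 (t1 * t2) (s1 * t2 + s2 * t1) (t1 + t2 + s1 * s2) (s1 + s2) (by
    rcases hp with h | h | ⟨h, h', h''⟩
    · exact Or.inl h
    · right; left; nlinarith
    · right; right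
      rw [h, h', h'']
      refine ⟨by ring, by ring, by ring⟩)
  refine ⟨A, h1, ?_⟩
  rw [h2]
  simp only [C_add, C_mul]
  ring

/-- One of the three pairs can be used. -/
theorem exists_pair (s1 t1 s2 t2 s3 t3 : ℝ) :
    (0 < t1 * t2 ∨ 4 * (t1 + t2) < (s1 - s2) ^ 2 ∨ (t1 = 0 ∧ t2 = 0 ∧ s1 = s2)) ∨
    (0 < t1 * t3 ∨ 4 * (t1 + t3) < (s1 - s3) ^ 2 ∨ (t1 = 0 ∧ t3 = 0 ∧ s1 = s3)) ∨
    (0 < t2 * t3 ∨ 4 * (t2 + t3) < (s2 - s3) ^ 2 ∨ (t2 = 0 ∧ t3 = 0 ∧ s2 = s3)) := by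
  by_contra hcon
  push Not at hcon
  obtain ⟨⟨a1, a2, a3⟩, ⟨b1, b2, b3⟩, c1, c2, c3⟩ := hcon
  have a4 : 0 ≤ t1 + t2 := by nlinarith [sq_nonneg (s1 - s2)]
  have b4 : 0 ≤ t1 + t3 := by nlinarith [sq_nonneg (s1 - s3)]
  have c4 : 0 ≤ t2 + t3 := by nlinarith [sq_nonneg (s2 - s3)]
  have fin : ∀ x y : ℝ, (x - y) ^ 2 ≤ 0 → x = y := by
    intro x y h
    have : x - y = 0 := by
      have := le_antisymm h (sq_nonneg _)
      exact pow_eq_zero_iff (two_ne_zero) |>.1 this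
    linarith
  rcases lt_or_ge 0 t1 with h1 | h1
  · have h2 : t2 ≤ 0 := by
      by_contra h; push Not at h; have := mul_pos h1 h; linarith
    have h3 : t3 ≤ 0 := by
      by_contra h; push Not at h; have := mul_pos h1 h; linarith
    have z2 : t2 = 0 := by linarith
    have z3 : t3 = 0 := by linarith
    exact c3 z2 z3 (fin _ _ (by rw [z2, z3] at c2; linarith))
  rcases lt_or_ge 0 t2 with h2 | h2
  · have h3 : t3 ≤ 0 := by
      by_contra h; push Not at h; have := mul_pos h2 h; linarith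
    have z1 : t1 = 0 := by linarith
    have z3 : t3 = 0 := by linarith
    exact b3 z1 z3 (fin _ _ (by rw [z1, z3] at b2; linarith))
  · have z1 : t1 = 0 := by linarith
    have z2 : t2 = 0 := by linarith
    exact a3 z1 z2 (fin _ _ (by rw [z1, z2] at a2; linarith))

theorem P_arbitrary : SpectrallyArbitrary P := by
  intro p hp hd
  have hp6 : IsMonicOfDegree p (2 + 2 + 2) := ⟨hd, hp⟩
  obtain ⟨f1, g1, hf1, hg1, e1⟩ := hp6.eq_isMonicOfDegree_two_mul_isMonicOfDegree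
  obtain ⟨f2, f3, hf2, hf3, e2⟩ := hg1.eq_isMonicOfDegree_two_mul_isMonicOfDegree
  obtain ⟨s1, t1, r1⟩ := isMonicOfDegree_two_iff.1 hf1
  obtain ⟨s2, t2, r2⟩ := isMonicOfDegree_two_iff.1 hf2
  obtain ⟨s3, t3, r3⟩ := isMonicOfDegree_two_iff.1 hf3
  have main : ∀ q1 u1 q2 u2 q3 u3 : ℝ,
      (0 < u1 * u2 ∨ 4 * (u1 + u2) < (q1 - q2) ^ 2 ∨ (u1 = 0 ∧ u2 = 0 ∧ q1 = q2)) →
      p = (X ^ 2 + C q1 * X + C u1) * (X ^ 2 + C q2 * X + C u2) * (X ^ 2 + C q3 * X + C u3) →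
      ∃ A : Matrix (Fin 6) (Fin 6) ℝ, Realizes A P ∧ A.charpoly = p := by
    intro q1 u1 q2 u2 q3 u3 hq hpq
    obtain ⟨A, hA1, hA2⟩ := realize_pair q1 u1 q2 u2 hq
    obtain ⟨B, hB1, hB2⟩ := realize_T2 q3 u3
    let e : Fin 4 ⊕ Fin 2 ≃ Fin 6 := finSumFinEquiv
    refine ⟨Matrix.reindex e e (Matrix.fromBlocks A 0 0 B), ?_, ?_⟩
    · intro i j
      obtain ⟨i, rfl⟩ := e.surjective i
      obtain ⟨j, rfl⟩ := e.surjective j
      rw [Matrix.reindex_apply, Matrix.submatrix_apply, Equiv.symm_apply_apply,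
        Equiv.symm_apply_apply]
      rcases i with i | i <;> rcases j with j | j
      · rw [Matrix.fromBlocks_apply₁₁, hA1 i j]
        fin_cases i <;> fin_cases j <;> rfl
      · rw [Matrix.fromBlocks_apply₁₂, Matrix.zero_apply, sign_zero]
        fin_cases i <;> fin_cases j <;> rfl
      · rw [Matrix.fromBlocks_apply₂₁, Matrix.zero_apply, sign_zero]
        fin_cases i <;> fin_cases j <;> rfl
      · rw [Matrix.fromBlocks_apply₂₂, hB1 i j]
        fin_cases i <;> fin_cases j <;> rfl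
    · rw [Matrix.charpoly_reindex, Matrix.charpoly_fromBlocks_zero₁₂, hA2, hB2, hpq]
  rcases exists_pair s1 t1 s2 t2 s3 t3 with h | h | h
  · exact main s1 t1 s2 t2 s3 t3 h (by rw [e1, e2, r1, r2, r3]; ring)
  · exact main s1 t1 s3 t3 s2 t2 h (by rw [e1, e2, r1, r2, r3]; ring)
  · exact main s2 t2 s3 t3 s1 t1 h (by rw [e1, e2, r1, r2, r3]; ring)

/-- The algebraic reason why `Q` has no nilpotent realization. -/
theorem no_nilpotent (a b c d e f g h k u : ℝ) (hb : 0 < b)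
    (hf : 0 < f) (hg : 0 < g) (hh : 0 < h) (hk : 0 < k) (hu : 0 < u) (h1 : a - e = 0) (h2 : b * d - a * e - u * h = 0)
    (h3 : u * (e * h - d * k) + g * (c * h - f * k) = 0)
    (h4 : g * (f * (b * h - a * k) + c * (d * k - e * h)) = 0) : False := by
  have he : e = a := by linarith
  subst he
  have h5 : f * (b * h - e * k) + c * (d * k - e * h) = 0 := by
    rcases mul_eq_zero.1 h4 with h | h
    · exact absurd h hg.ne'
    · exact h
  obtain ⟨Xx, hX⟩ : ∃ x, x = b * h - e * k := ⟨_, rfl⟩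
  obtain ⟨Y, hY⟩ : ∃ y, y = d * k - e * h := ⟨_, rfl⟩
  have h6 : b * (h * Xx + k * Y) = Xx ^ 2 + u * h * k ^ 2 := by
    have : u * h = b * d - e * e := by linarith
    rw [this, hX, hY]; ring
  have h7 : 0 < h * Xx + k * Y := by
    have : 0 < b * (h * Xx + k * Y) := by rw [h6]; positivity
    exact (pos_iff_pos_of_mul_pos this).1 hb
  have h8 : g * (f * (h * Xx + k * Y)) = -(u * Y ^ 2) := by
    have e1 : f * Xx = -(c * Y) := by rw [hX, hY]; linarith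
    have e2 : g * (c * h - f * k) = u * Y := by rw [hY]; linarith
    calc g * (f * (h * Xx + k * Y)) = g * (h * (f * Xx) + f * k * Y) := by ring
      _ = -(g * (c * h - f * k) * Y) := by rw [e1]; ring
      _ = -(u * Y ^ 2) := by rw [e2]; ring
  have h9 : 0 < g * (f * (h * Xx + k * Y)) := by positivity
  have h10 : 0 ≤ u * Y ^ 2 := by positivity
  linarith

theorem coeffs_zero (α β γ δ : ℝ)
    (h : (X : ℝ[X]) ^ 4 = X ^ 4 - C α * X ^ 3 + C β * X ^ 2 - C γ * X + C δ) :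
    α = 0 ∧ β = 0 ∧ γ = 0 ∧ δ = 0 := by
  have c3 := congrArg (fun q : ℝ[X] => q.coeff 3) h
  have c2 := congrArg (fun q : ℝ[X] => q.coeff 2) h
  have c1 := congrArg (fun q : ℝ[X] => q.coeff 1) h
  have c0 := congrArg (fun q : ℝ[X] => q.coeff 0) h
  simp only [coeff_add, coeff_sub, coeff_C_mul, coeff_X, coeff_X_pow, coeff_C] at c3 c2 c1 c0
  norm_num at c3 c2 c1 c0
  exact ⟨c3, c2.symm, c1, c0.symm⟩

theorem Q_not_arbitrary : ¬ SpectrallyArbitrary Q := by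
  intro hQ
  obtain ⟨A, hA, hp⟩ := hQ (X ^ 6) (monic_X_pow 6) (natDegree_X_pow 6)
  have z : ∀ i j, Q i j = 0 → A i j = 0 := fun i j h => sign_eq_zero_iff.1 ((hA i j).trans h)
  have pos : ∀ i j, Q i j = 1 → 0 < A i j := fun i j h => sign_eq_one_iff.1 ((hA i j).trans h)
  have neg : ∀ i j, Q i j = -1 → 0 < -(A i j) := fun i j h =>
    neg_pos.2 (sign_eq_neg_one_iff.1 ((hA i j).trans h))
  set A1 : Matrix (Fin 4) (Fin 4) ℝ :=
    !![A 0 0, A 0 1, -(-(A 0 2)), A 0 3; -(-(A 1 0)), -(-(A 1 1)), A 1 2, 0;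
      0, 0, 0, -(-(A 2 3)); A 3 0, A 3 1, 0, 0] with hA1
  set A2 : Matrix (Fin 2) (Fin 2) ℝ := !![A 4 4, A 4 5; A 5 4, A 5 5] with hA2
  have hblock : A = Matrix.reindex finSumFinEquiv finSumFinEquiv
      (Matrix.fromBlocks A1 0 0 A2 : Matrix (Fin 4 ⊕ Fin 2) (Fin 4 ⊕ Fin 2) ℝ) := by
    ext i j
    obtain ⟨i, rfl⟩ := (finSumFinEquiv (m := 4) (n := 2)).surjective i
    obtain ⟨j, rfl⟩ := (finSumFinEquiv (m := 4) (n := 2)).surjective j
    rw [Matrix.reindex_apply, Matrix.submatrix_apply, Equiv.symm_apply_apply,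
      Equiv.symm_apply_apply]
    rcases i with i | i <;> rcases j with j | j
    · rw [Matrix.fromBlocks_apply₁₁, hA1]
      fin_cases i <;> fin_cases j <;> first
        | rfl
        | exact z _ _ rfl
        | exact (neg_neg _).symm
    · rw [Matrix.fromBlocks_apply₁₂, Matrix.zero_apply]
      fin_cases i <;> fin_cases j <;> exact z _ _ rfl
    · rw [Matrix.fromBlocks_apply₂₁, Matrix.zero_apply]
      fin_cases i <;> fin_cases j <;> exact z _ _ rfl
    · rw [Matrix.fromBlocks_apply₂₂, hA2]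
      fin_cases i <;> fin_cases j <;> rfl
  have hprod : A1.charpoly * A2.charpoly = X ^ 6 := by
    rw [← hp, hblock, Matrix.charpoly_reindex, Matrix.charpoly_fromBlocks_zero₁₂]
  have hdvd : A1.charpoly ∣ X ^ 6 := ⟨_, hprod.symm⟩
  obtain ⟨i, hi, hassoc⟩ := (dvd_prime_pow (Polynomial.prime_X (R := ℝ)) 6).1 hdvd
  have heq : A1.charpoly = X ^ i :=
    Polynomial.eq_of_monic_of_associated A1.charpoly_monic (monic_X_pow i) hassoc
  have hdeg : A1.charpoly.natDegree = 4 := by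
    rw [Matrix.charpoly_natDegree_eq_dim, Fintype.card_fin]
  have hi4 : i = 4 := by rw [heq, natDegree_X_pow] at hdeg; exact hdeg
  subst hi4
  have hc := charpoly4 (A 0 0) (A 0 1) (-(A 0 2)) (-(A 1 0)) (-(A 1 1)) (A 1 2) (-(A 2 3))
    (A 3 0) (A 3 1) (A 0 3)
  rw [← hA1, heq] at hc
  obtain ⟨c3, c2, c1, c0⟩ := coeffs_zero _ _ _ _ hc
  exact no_nilpotent (A 0 0) (A 0 1) (-(A 0 2)) (-(A 1 0)) (-(A 1 1)) (A 1 2) (-(A 2 3))
    (A 3 0) (A 3 1) (A 0 3) (pos 0 1 rfl) (pos 1 2 rfl) (neg 2 3 rfl) (pos 3 0 rfl) (pos 3 1 rfl)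
    (pos 0 3 rfl) c3 c2 c1 c0

theorem agree : ∀ i j, P i j = 0 ∨ Q i j = P i j := by
  intro i j
  fin_cases i <;> fin_cases j <;> first | exact Or.inl rfl | exact Or.inr rfl

theorem isSuperpattern : IsSuperpattern Q P := fun i j h => (agree i j).resolve_left h

/-- There is a spectrally arbitrary sign pattern with a superpattern that is not spectrally
arbitrary. -/
theorem result : ∃ (n : ℕ) (P Q : Matrix (Fin n) (Fin n) SignType),
    SpectrallyArbitrary P ∧ IsSuperpattern Q P ∧ ¬ SpectrallyArbitrary Q :=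
  ⟨6, P, Q, P_arbitrary, isSuperpattern, Q_not_arbitrary⟩

end Pool.Agent.Results.MP_557f7f_co.SpectralSuperpattern
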